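import Mathlib
import Pool.Agent.Lib.lead.TT

set_option autoImplicit false

namespace Pool.Agent.Results.MP_3f42a7_lc.Omissible

open LeadTT

section mem
variable {α : Type} {a b c d e f g h i j : α} {l : List α}
lemma m0 : a ∈ a :: l := .head _
lemma m1 : a ∈ b :: a :: l := .tail _ m0
lemma m2 : a ∈ c :: b :: a :: l := .tail _ m1
lemma m3 : a ∈ d :: c :: b :: a :: l := .tail _ m2
lemma m4 : a ∈ e :: d :: c :: b :: a :: l := .tail _ m3
lemma m5 : a ∈ f :: e :: d :: c :: b :: a :: l := .tail _ m4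
lemma m6 : a ∈ g :: f :: e :: d :: c :: b :: a :: l := .tail _ m5
lemma m7 : a ∈ h :: g :: f :: e :: d :: c :: b :: a :: l := .tail _ m6
lemma m8 : a ∈ i :: h :: g :: f :: e :: d :: c :: b :: a :: l := .tail _ m7
lemma m9 : a ∈ j :: i :: h :: g :: f :: e :: d :: c :: b :: a :: l := .tail _ m8
end mem

def Le (φ ψ : Fm) : Prop := Ac (.imp φ ψ)

variable {A B C A' B' : Fm}

lemma Le.rfl : Le A A := .cc m0 (.crash m0 m1 (by intro k; simp))

lemma Le.trans (h : Le A B) (h' : Le B C) : Le A C :=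
  .cc m0 (.rr m0 h (.rr m0 h' (.crash m0 m3 (by intro k; simp))))

lemma Le.contra (h : Le A B) : Le (.neg B) (.neg A) :=
  .cc m0 (.un m1 (.dn _) (.rr m0 h (.crash m0 m2 (by intro k; simp))))

lemma detach (h : Ac A) (h' : Le A B) : Ac B :=
  .rr m0 h'.contra (Cl.mono h _ (by simp))

lemma and1 : Le (.and A B) A := .cc m0 (.un m0 (.a1 _ _) (.crash m0 m2 (by intro k; simp)))
lemma and2 : Le (.and A B) B := .cc m0 (.un m0 (.a2 _ _) (.crash m0 m2 (by intro k; simp)))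
lemma or1 : Le A (.or A B) := .cc m0 (.un m1 (.o1 _ _) (.crash m1 m0 (by intro k; simp)))
lemma or2 : Le B (.or A B) := .cc m0 (.un m1 (.o2 _ _) (.crash m1 m0 (by intro k; simp)))
lemma dne : Le (.neg (.neg A)) A := .cc m0 (.un m0 (.dn _) (.crash m0 m2 (by intro k; simp)))
lemma dni : Le A (.neg (.neg A)) :=
  .cc m0 (.un m1 (.dn _) (.crash m1 m0 (by intro k; simp)))

lemma Le.and (h : Le C A) (h' : Le C B) : Le C (.and A B) :=
  .cc m0 (.fk m1 (.nand _ _) (.rr m1 h (.crash m0 m1 (by intro k; simp)))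
    (.rr m1 h' (.crash m0 m1 (by intro k; simp))))

lemma Le.or (h : Le A C) (h' : Le B C) : Le (.or A B) C :=
  .cc m0 (.fk m0 (.or _ _) (.rr m0 h (.crash m0 m3 (by intro k; simp)))
    (.rr m0 h' (.crash m0 m3 (by intro k; simp))))

lemma Le.imp (h : Le A' A) (h' : Le B B') : Le (.imp A B) (.imp A' B') :=
  .cc m0 (.cc m1 (.rr m0 h (.mp m0 m3 (.rr m0 h' (.crash m0 m4
    (by intro k; simp <;> omega))))))

lemma assert (h : Ac A) : Le (.imp A B) B :=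
  detach h (.cc m0 (.cc m1 (.mp m2 m0 (.crash m0 m2 (by intro k; simp <;> omega)))))

lemma contrap : Le (.imp A A) (.imp (.neg A) (.neg A)) :=
  .cc m0 (.cc m1 (.un m1 (.dn _) (.mp m0 m3 (.crash m0 m2 (by intro k; simp <;> omega)))))

def qq (δ : Fm) : Fm := .or δ (.or (.neg δ) (.neg (.imp δ δ)))
def bt (δ : Fm) : Fm := .imp (qq δ) (.neg (qq δ))

variable (δ : Fm)

lemma t1 : Le (qq δ) (.neg (bt δ)) :=
  .cc m0 (.un m1 (.dn _) (.mp m1 m0 (.crash m2 m0 (by intro k; simp))))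

lemma acq : Ac (qq δ) :=
  .un m0 (.o1 _ _) (.un m1 (.o2 _ _) (.un m0 (.o1 _ _) (.crash m2 m0 (by intro k; simp))))

lemma t2 : Ac (.neg (bt δ)) := detach (acq δ) (t1 δ)

lemma t3a : Le (.neg (qq δ)) (.imp (qq δ) (qq δ)) := by
  refine .cc m0 (.cc m1 (.un m2 (.o2 _ _) (.un m0 (.o2 _ _) (.un m0 (.dn _) ?_))))
  refine .un m4 (.o1 _ _) (.un m5 (.o2 _ _) (.un m0 (.o1 _ _) (.un m1 (.o2 _ _) ?_)))
  refine .fk m7 (.or _ _) (.mp m0 m5 (.crash m0 m5 (by intro k; simp <;> omega))) ?_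
  refine .fk m0 (.or _ _) (.un m3 (.dn _) (.mp m0 m7 (.crash m0 m2 (by intro k; simp <;> omega)))) ?_
  refine .cc m0 (.mp m0 m8 (.un m5 (.dn _) (.mp m1 m0 (.crash m0 m4 ?_))))
  intro k
  simp <;> omega

lemma t3 : Le (bt δ) (.imp (qq δ) (bt δ)) := by
  refine .cc m0 (.cc m1 (.cc m1 (.mp m2 m4 (.rr m0 (t3a δ) (.mp m2 m0 (.mp m0 m7
    (.crash m0 m5 ?_)))))))
  intro k
  simp <;> omega

lemma t4 : Le (bt δ) (.imp (.neg (bt δ)) (bt δ)) := by
  refine .cc m0 (.cc m1 (.cc m0 (.un m1 (.dn _) (.rr m5 (t3 δ) (.mp m2 m0 (.rr m0 (t3 δ)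
    (.mp m3 m0 (.crash m0 m8 ?_))))))))
  intro k
  simp <;> omega

lemma t7 : Le (.neg (bt δ)) (.imp (bt δ) (bt δ)) := by
  refine .cc m0 (.cc m1 (.rr m0 (t4 δ) (.mp m3 m0 (.crash m0 m3 ?_))))
  intro k
  simp <;> omega

lemma t5 : Le (.neg (bt δ)) (.imp (.neg (bt δ)) (.neg (bt δ))) := (t7 δ).trans contrap

lemma t10 : Le (bt δ) (.neg (bt δ)) :=
  ((assert (acq δ)).trans (Le.contra or1)).trans (((or1.trans or2 : Le (.neg δ) (qq δ))).trans
    (t1 δ))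

/-! ### The translation -/

def tr (X : Finset ℕ) (δ : Fm) : Bool → Fm → Fm
  | b, .atom p => if p ∈ X then (if b then bt δ else .neg (bt δ)) else .atom p
  | b, .neg φ => .neg (tr X δ (!b) φ)
  | b, .and φ ψ => .and (tr X δ b φ) (tr X δ b ψ)
  | b, .or φ ψ => .or (tr X δ b φ) (tr X δ b ψ)
  | b, .imp φ ψ =>
      .and (.imp (tr X δ false φ) (tr X δ b ψ)) (.imp (tr X δ true φ) (tr X δ true ψ))

variable (X : Finset ℕ)

lemma tr_her (φ : Fm) : Le (tr X δ true φ) (tr X δ false φ) := by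
  induction φ with
  | atom p =>
    by_cases hp : p ∈ X
    · simpa [tr, hp] using t10 δ
    · simpa [tr, hp] using Le.rfl
  | neg φ ih => exact ih.contra
  | and φ ψ ih ih' => exact (and1.trans ih).and (and2.trans ih')
  | or φ ψ ih ih' => exact (ih.trans or1).or (ih'.trans or2)
  | imp φ ψ _ ih' => exact (and1.trans (Le.rfl.imp ih')).and and2

lemma sim {k : ℕ} {Γ : List (Fm × Set Id)} (h : Cl k Γ) : ∀ (D : Set Id → Bool → Prop)
    (Γ' : List (Fm × Set Id)), Dv k D → (∀ p ∈ Γ, ∃ x, D p.2 x ∧ (tr X δ x p.1, p.2) ∈ Γ') →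
    Cl k Γ' := by
  have wk : ∀ {D : Set Id → Bool → Prop} {Γ Γ' Γ'' : List (Fm × Set Id)},
      (∀ p ∈ Γ, ∃ x, D p.2 x ∧ (tr X δ x p.1, p.2) ∈ Γ') → Γ' ⊆ Γ'' →
      ∀ p ∈ Γ, ∃ x, D p.2 x ∧ (tr X δ x p.1, p.2) ∈ Γ'' := fun h s p hp =>
    let ⟨x, h1, h2⟩ := h p hp
    ⟨x, h1, s h2⟩
  have s1 : ∀ {a : Fm × Set Id} {l : List (Fm × Set Id)}, l ⊆ a :: l := by
    intro a l
    exact List.subset_cons_self _ _
  induction h with
  | @crash k Γ φ S S' a b c =>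
    intro D Γ' hD hΓ
    obtain ⟨x, h1, h2⟩ := hΓ _ a
    obtain ⟨y, h3, h4⟩ := hΓ _ b
    have := hD.bal (hD.un h1 h3) c
    cases x <;> cases y
    · simp at this
    · exact .crash h2 h4 c
    · exact .crash h2 h4 c
    · exact .rr h2 (tr_her δ X φ) (.crash m0 (.tail _ h4) c)
  | un a b _ ih =>
    intro D Γ' hD hΓ
    obtain ⟨x, h1, h2⟩ := hΓ _ a
    refine .un h2 ?_ (ih D _ hD (List.forall_mem_cons.2 ⟨⟨x, h1, m0⟩, wk hΓ s1⟩))
    cases b with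
    | dn => simpa only [tr, Bool.not_not] using Un.dn _
    | a1 => exact .a1 _ _
    | a2 => exact .a2 _ _
    | o1 => exact .o1 _ _
    | o2 => exact .o2 _ _
  | fk a b _ _ ih ih' =>
    intro D Γ' hD hΓ
    obtain ⟨x, h1, h2⟩ := hΓ _ a
    refine .fk h2 ?_ (ih D _ hD (List.forall_mem_cons.2 ⟨⟨x, h1, m0⟩, wk hΓ s1⟩))
      (ih' D _ hD (List.forall_mem_cons.2 ⟨⟨x, h1, m0⟩, wk hΓ s1⟩))
    cases b with
    | or => exact .or _ _
    | nand => exact .nand _ _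
  | mp a b _ ih =>
    intro D Γ' hD hΓ
    obtain ⟨x, h1, h2⟩ := hΓ _ a
    obtain ⟨y, h3, h4⟩ := hΓ _ b
    have h5 := hD.un h1 h3
    cases x
    · exact .un h4 (.a1 _ _) (.mp (.tail _ h2) m0 (ih D _ hD (List.forall_mem_cons.2
        ⟨⟨y, by simpa using h5, m0⟩, wk (wk hΓ s1) s1⟩)))
    · exact .un h4 (.a2 _ _) (.mp (.tail _ h2) m0 (ih D _ hD (List.forall_mem_cons.2
        ⟨⟨true, hD.up h5 le_top, m0⟩, wk (wk hΓ s1) s1⟩)))
  | cc a _ ih =>
    intro D Γ' hD hΓ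
    obtain ⟨x, h1, h2⟩ := hΓ _ a
    refine .fk h2 (.nand _ _) ?_ ?_
    · obtain ⟨D', d1, d2, d3, d4⟩ := hD.cc h1 (y := false) (z := x) le_sup_right
      refine .cc m0 (ih D' _ d1 (List.forall_mem_cons.2 ⟨⟨false, d3, m0⟩, List.forall_mem_cons.2
        ⟨⟨x, d4, m1⟩, fun p hp => ?_⟩⟩))
      obtain ⟨u, a1, a2⟩ := hΓ p hp
      exact ⟨u, d2 _ _ a1, .tail _ (.tail _ (.tail _ a2))⟩
    · obtain ⟨D', d1, d2, d3, d4⟩ := hD.cc h1 (y := true) (z := false) (le_top.trans le_sup_left)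
      refine .cc m0 (ih D' _ d1 (List.forall_mem_cons.2 ⟨⟨true, d3, m0⟩, List.forall_mem_cons.2
        ⟨⟨false, d4, m1⟩, fun p hp => ?_⟩⟩))
      obtain ⟨u, a1, a2⟩ := hΓ p hp
      exact ⟨u, d2 _ _ a1, .tail _ (.tail _ (.tail _ a2))⟩
  | @rr k Γ φ ψ S a _ _ ih ih' =>
    intro D Γ' hD hΓ
    obtain ⟨x, h1, h2⟩ := hΓ _ a
    have h3 : Ac (tr X δ false (.imp φ ψ)) :=
      ih _ _ dv0 (List.forall_mem_singleton.2 ⟨true, ⟨rfl, rfl⟩, m0⟩)
    have h4 : Le (tr X δ x φ) (tr X δ x ψ) := by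
      cases x
      · exact detach h3 and1
      · exact detach h3 and2
    exact .rr h2 h4 (ih' D _ hD (List.forall_mem_cons.2 ⟨⟨x, h1, m0⟩, wk hΓ s1⟩))

lemma tr_le {φ ψ : Fm} (h : Le φ ψ) (x : Bool) : Le (tr X δ x φ) (tr X δ x ψ) := by
  have h3 : Ac (tr X δ false (.imp φ ψ)) :=
    sim δ X h _ _ dv0 (List.forall_mem_singleton.2 ⟨true, ⟨rfl, rfl⟩, m0⟩)
  cases x
  · exact detach h3 and1
  · exact detach h3 and2

lemma tr_out (φ : Fm) (h : ∀ p ∈ φ.vars, p ∉ X) : ∀ b, Le (tr X δ b φ) φ ∧ Le φ (tr X δ b φ) := by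
  induction φ with
  | atom p =>
    intro b
    simp only [tr, if_neg (h p (by simp [Fm.vars]))]
    exact ⟨Le.rfl, Le.rfl⟩
  | neg φ ih => exact fun b => ⟨(ih h _).2.contra, (ih h _).1.contra⟩
  | and φ ψ ih ih' =>
    intro b
    have a := ih (fun p hp => h p (by simp [Fm.vars, hp])) b
    have a' := ih' (fun p hp => h p (by simp [Fm.vars, hp])) b
    exact ⟨(and1.trans a.1).and (and2.trans a'.1), (and1.trans a.2).and (and2.trans a'.2)⟩
  | or φ ψ ih ih' =>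
    intro b
    have a := ih (fun p hp => h p (by simp [Fm.vars, hp])) b
    have a' := ih' (fun p hp => h p (by simp [Fm.vars, hp])) b
    exact ⟨(a.1.trans or1).or (a'.1.trans or2), (a.2.trans or1).or (a'.2.trans or2)⟩
  | imp φ ψ ih ih' =>
    intro b
    have a := ih fun p hp => h p (by simp [Fm.vars, hp])
    have a' := ih' fun p hp => h p (by simp [Fm.vars, hp])
    exact ⟨and1.trans ((a _).2.imp (a' _).1),
      ((a _).1.imp (a' _).2).and ((a _).1.imp (a' _).2)⟩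

lemma tr_in (φ : Fm) (h : ∀ p ∈ φ.vars, p ∈ X) :
    (Le (tr X δ false φ) (.neg (bt δ)) ∧ Le (.neg (bt δ)) (tr X δ false φ)) ∧
    (Le (tr X δ true φ) (bt δ) ∧ Le (bt δ) (tr X δ true φ)) := by
  induction φ with
  | atom p =>
    simp only [tr, if_pos (h p (by simp [Fm.vars]))]
    exact ⟨⟨Le.rfl, Le.rfl⟩, Le.rfl, Le.rfl⟩
  | neg φ ih =>
    obtain ⟨⟨a, b⟩, c, d⟩ := ih h
    exact ⟨⟨d.contra, c.contra⟩, b.contra.trans dne, dni.trans a.contra⟩
  | and φ ψ ih ih' =>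
    obtain ⟨⟨a, b⟩, c, d⟩ := ih fun p hp => h p (by simp [Fm.vars, hp])
    obtain ⟨⟨a', b'⟩, c', d'⟩ := ih' fun p hp => h p (by simp [Fm.vars, hp])
    exact ⟨⟨and1.trans a, b.and b'⟩, and1.trans c, d.and d'⟩
  | or φ ψ ih ih' =>
    obtain ⟨⟨a, b⟩, c, d⟩ := ih fun p hp => h p (by simp [Fm.vars, hp])
    obtain ⟨⟨a', b'⟩, c', d'⟩ := ih' fun p hp => h p (by simp [Fm.vars, hp])
    exact ⟨⟨a.or a', b.trans or1⟩, c.or c', d.trans or1⟩
  | imp φ ψ ih ih' =>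
    obtain ⟨⟨a, b⟩, c, d⟩ := ih fun p hp => h p (by simp [Fm.vars, hp])
    obtain ⟨⟨a', b'⟩, c', d'⟩ := ih' fun p hp => h p (by simp [Fm.vars, hp])
    exact ⟨⟨and1.trans ((b.imp a').trans (assert (t2 δ))),
      ((t5 δ).trans (a.imp b')).and ((t7 δ).trans (c.imp d'))⟩,
      and1.trans ((b.imp c').trans (assert (t2 δ))),
      ((t4 δ).trans (a.imp d')).and (((t10 δ).trans (t7 δ)).trans (c.imp d'))⟩

theorem result (α β γ : Fm) (h1 : Disjoint β.vars α.vars) (h2 : Disjoint β.vars γ.vars)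
    (h : Acc (.imp (.and α β) γ) ∨ Acc (.imp α (.or β γ))) : Acc (.imp α γ) := by
  have ha : ∀ p ∈ α.vars, p ∉ β.vars := fun p a b => Finset.disjoint_left.1 h1 b a
  have hg : ∀ p ∈ γ.vars, p ∉ β.vars := fun p a b => Finset.disjoint_left.1 h2 b a
  rw [acc_iff, acc_iff] at h
  rw [acc_iff]
  rcases h with h | h
  · have := tr_le α β.vars h false
    refine Le.trans (Le.and (tr_out α _ α ha false).2 ?_) (this.trans (tr_out α _ γ hg false).1)
    exact (Le.trans or1 (t1 α)).trans (tr_in α _ β fun _ a => a).1.2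
  · have := tr_le (.neg γ) β.vars h true
    refine Le.trans ((tr_out (.neg γ) _ α ha true).2.trans this)
      (Le.or ?_ (tr_out (.neg γ) _ γ hg true).1)
    exact (tr_in (.neg γ) _ β fun _ a => a).2.1.trans
      (((assert (acq _)).trans (Le.contra or1)).trans dne)

end Pool.Agent.Results.MP_3f42a7_lc.Omissible
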